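import Mathlib

/-!
# Partial ovoids of the symplectic space of dimension four over a finite field (helper672)

`O` is a set of vectors of a four dimensional symplectic space over a field with `q` elements, no
two of which are orthogonal.  If `q` is odd then `|O| < q ^ 2`.
-/

set_option autoImplicit false

namespace Pool.Agent.R672.UU

open Module

variable {F V : Type*} [Field F] [AddCommGroup V] [Module F V]

/-- a symplectic form on a space of dimension four -/
structure Symp (B : V →ₗ[F] V →ₗ[F] F) : Prop where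
  dim : finrank F V = 4
  alt : ∀ x, B x x = 0
  nd : ∀ x, (∀ y, B x y = 0) → x = 0

theorem Symp.neg {B : V →ₗ[F] V →ₗ[F] F} (h : Symp B) (x y : V) : B x y = - B y x := by
  have h1 := h.alt (x + y)
  simp only [map_add, LinearMap.add_apply, h.alt, zero_add, add_zero] at h1
  exact eq_neg_of_add_eq_zero_right h1

/-- `x, y, P, Q` is a symplectic basis up to the factor `B x y` -/
structure Bas (B : V →ₗ[F] V →ₗ[F] F) (x y P Q : V) : Prop where
  xy : B x y ≠ 0
  PQ : B P Q = 1
  xP : B x P = 0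
  xQ : B x Q = 0
  yP : B y P = 0
  yQ : B y Q = 0
  ex : ∀ z, z = (B z y / B x y) • x + (B z x / B y x) • y + B z Q • P - B z P • Q

theorem Symp.exists_bas {B : V →ₗ[F] V →ₗ[F] F} (h : Symp B) {x y : V} (hxy : B x y ≠ 0) :
    ∃ P Q, Bas B x y P Q := by
  have hfd : FiniteDimensional F V := FiniteDimensional.of_finrank_pos (by rw [h.dim]; norm_num)
  have hyx : B y x ≠ 0 := by
    rw [h.neg]
    exact neg_ne_zero.2 hxy
  -- a nonzero vector orthogonal to `x` and `y`
  obtain ⟨P, hP0, hP⟩ : ∃ P : V, P ≠ 0 ∧ B P x = 0 ∧ B P y = 0 := by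
    let f : V →ₗ[F] F × F := (B.flip x).prod (B.flip y)
    have hk : LinearMap.ker f ≠ ⊥ := by
      apply LinearMap.ker_ne_bot_of_finrank_lt
      rw [h.dim, finrank_prod, finrank_self]
      norm_num
    obtain ⟨P, hP, hP0⟩ := Submodule.exists_mem_ne_zero_of_ne_bot hk
    refine ⟨P, hP0, ?_⟩
    have h1 : f P = 0 := hP
    exact ⟨by simpa [f] using congrArg Prod.fst h1, by simpa [f] using congrArg Prod.snd h1⟩
  obtain ⟨z, hz⟩ : ∃ z, B P z ≠ 0 := by
    by_contra hc
    push Not at hc
    exact hP0 (h.nd P hc)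
  obtain ⟨w, hw⟩ : ∃ w, w = z - (B z y / B x y) • x - (B z x / B y x) • y := ⟨_, rfl⟩
  have hwx : B w x = 0 := by
    rw [hw]
    simp only [map_sub, map_smul, LinearMap.sub_apply, LinearMap.smul_apply, smul_eq_mul, h.alt]
    field_simp
    ring
  have hwy : B w y = 0 := by
    rw [hw]
    simp only [map_sub, map_smul, LinearMap.sub_apply, LinearMap.smul_apply, smul_eq_mul, h.alt]
    field_simp
    ring
  have hPw : B P w = B P z := by
    rw [hw]
    simp only [map_sub, map_smul, smul_eq_mul, hP.1, hP.2]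
    ring
  refine ⟨P, (B P z)⁻¹ • w, ?_⟩
  obtain ⟨Q, hQ⟩ : ∃ Q, Q = (B P z)⁻¹ • w := ⟨_, rfl⟩
  rw [← hQ]
  have hPQ : B P Q = 1 := by
    rw [hQ, map_smul, smul_eq_mul, hPw, inv_mul_cancel₀ hz]
  have hQP : B Q P = -1 := by rw [h.neg, hPQ]
  have hxP : B x P = 0 := by rw [h.neg, hP.1, neg_zero]
  have hyP : B y P = 0 := by rw [h.neg, hP.2, neg_zero]
  have hxQ : B x Q = 0 := by rw [hQ, map_smul, h.neg x w, hwx, neg_zero, smul_zero]
  have hyQ : B y Q = 0 := by rw [hQ, map_smul, h.neg y w, hwy, neg_zero, smul_zero]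
  have hQx : B Q x = 0 := by rw [h.neg, hxQ, neg_zero]
  have hQy : B Q y = 0 := by rw [h.neg, hyQ, neg_zero]
  refine ⟨hxy, hPQ, hxP, hxQ, hyP, hyQ, fun z => ?_⟩
  let Φ : V →ₗ[F] (F × F) × (F × F) :=
    ((B.flip x).prod (B.flip y)).prod ((B.flip P).prod (B.flip Q))
  have hΦ : ∀ v, Φ v = ((B v x, B v y), (B v P, B v Q)) := fun v => rfl
  have key : ∀ a b c d : F, Φ ((b / B x y) • x + (a / B y x) • y + d • P - c • Q) =
      ((a, b), (c, d)) := by
    intro a b c d
    rw [hΦ]
    simp only [map_sub, map_add, map_smul,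
      LinearMap.sub_apply, LinearMap.add_apply, LinearMap.smul_apply, smul_eq_mul, h.alt, hP.1,
      hP.2, hQx, hQy, hPQ, hQP, hxP, hxQ, hyP, hyQ, mul_zero, add_zero, zero_add, sub_zero,
      mul_one, mul_neg, sub_neg_eq_add, Prod.mk.injEq]
    refine ⟨⟨?_, ?_⟩, trivial⟩
    · field_simp
    · field_simp
  have hsurj : Function.Surjective Φ := by
    rintro ⟨⟨a, b⟩, c, d⟩
    exact ⟨_, key a b c d⟩
  have hinj : Function.Injective Φ := by
    apply (LinearMap.injective_iff_surjective_of_finrank_eq_finrank _).2 hsurj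
    rw [h.dim, finrank_prod, finrank_prod, finrank_self]
  apply hinj
  rw [key, hΦ]

/-- other symplectic bases with the same `x`, `y` -/
theorem Bas.shift {B : V →ₗ[F] V →ₗ[F] F} {x y P Q : V} (hB : Symp B) (h : Bas B x y P Q) (t : F) :
    Bas B x y (P + t • Q) Q := by
  have hQQ := hB.alt Q
  refine ⟨h.xy, ?_, ?_, h.xQ, ?_, h.yQ, fun z => ?_⟩
  · rw [map_add, LinearMap.add_apply, map_smul, LinearMap.smul_apply, hQQ, smul_zero, add_zero,
      h.PQ]
  · rw [map_add, map_smul, h.xP, h.xQ, smul_zero, add_zero]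
  · rw [map_add, map_smul, h.yP, h.yQ, smul_zero, add_zero]
  · conv_lhs => rw [h.ex z]
    rw [map_add, map_smul, smul_eq_mul]
    module

theorem Bas.swap {B : V →ₗ[F] V →ₗ[F] F} {x y P Q : V} (hB : Symp B) (h : Bas B x y P Q) :
    Bas B x y Q (-P) := by
  refine ⟨h.xy, ?_, h.xQ, ?_, h.yQ, ?_, fun z => ?_⟩
  · rw [map_neg, hB.neg, neg_neg, h.PQ]
  · rw [map_neg, h.xP, neg_zero]
  · rw [map_neg, h.yP, neg_zero]
  · conv_lhs => rw [h.ex z]
    rw [map_neg]
    module

/-- the form on vectors orthogonal to `P` -/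
theorem Bas.form {B : V →ₗ[F] V →ₗ[F] F} {x y P Q : V} (hB : Symp B) (h : Bas B x y P Q) {z w : V}
    (hz : B z P = 0) (hw : B w P = 0) :
    B z w * B x y = B z x * B w y - B z y * B w x := by
  have hPx : B P x = 0 := by rw [hB.neg, h.xP, neg_zero]
  have hPy : B P y = 0 := by rw [hB.neg, h.yP, neg_zero]
  have hPw : B P w = 0 := by rw [hB.neg, hw, neg_zero]
  have e1 := h.ex w
  rw [hw, zero_smul, sub_zero] at e1
  have hyx : B y x = - B x y := hB.neg y x
  have hne := h.xy
  conv_lhs => rw [e1]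
  simp only [map_add, map_smul, smul_eq_mul, hz, mul_zero, add_zero, hyx]
  field_simp
  ring

section fin

variable [Fintype F] [DecidableEq F] [DecidableEq V]

/-- no two elements of `O` are orthogonal -/
def PO (B : V →ₗ[F] V →ₗ[F] F) (O : Finset V) : Prop :=
  ∀ x ∈ O, ∀ y ∈ O, x ≠ y → B x y ≠ 0

theorem inj_slope {B : V →ₗ[F] V →ₗ[F] F} {x y P Q : V} (hB : Symp B) (h : Bas B x y P Q)
    {O : Finset V} (hO : PO B O) (hy : y ∈ O) :
    Set.InjOn (fun z => B z x / B z y) (((O.filter fun z => B z P = 0).erase y : Finset V) : Set V)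
    := by
  intro z hz w hw hzw
  rw [Finset.mem_coe, Finset.mem_erase, Finset.mem_filter] at hz hw
  by_contra hne
  have h1 : B z y ≠ 0 := hO z hz.2.1 y hy hz.1
  have h2 : B w y ≠ 0 := hO w hw.2.1 y hy hw.1
  have h3 := h.form hB hz.2.2 hw.2.2
  have h4 : B z x * B w y - B z y * B w x = 0 := by
    have h5 : B z x / B z y = B w x / B w y := hzw
    rw [div_eq_div_iff h1 h2] at h5
    rw [h5]
    ring
  rw [h4] at h3
  exact hO z hz.2.1 w hw.2.1 hne ((mul_eq_zero.1 h3).resolve_right h.xy)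

theorem card_le {B : V →ₗ[F] V →ₗ[F] F} {x y P Q : V} (hB : Symp B) (h : Bas B x y P Q)
    {O : Finset V} (hO : PO B O) (hy : y ∈ O) :
    (O.filter fun z => B z P = 0).card ≤ Fintype.card F + 1 := by
  have h1 : ((O.filter fun z => B z P = 0).erase y).card ≤ Fintype.card F := by
    rw [← Finset.card_univ]
    exact Finset.card_le_card_of_injOn _ (fun _ _ => Finset.mem_coe.2 (Finset.mem_univ _))
      (inj_slope hB h hO hy)
  have h2 : y ∈ O.filter fun z => B z P = 0 := by
    rw [Finset.mem_filter]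
    exact ⟨hy, h.yP⟩
  rw [Finset.card_erase_of_mem h2] at h1
  omega

/-- the pencil of points `P + t Q`, `Q` -/
def pt (P Q : V) : Option F → V
  | none => Q
  | some t => P + t • Q

theorem bas_pt {B : V →ₗ[F] V →ₗ[F] F} {x y P Q : V} (hB : Symp B) (h : Bas B x y P Q)
    (t : Option F) : ∃ R, Bas B x y (pt P Q t) R := by
  cases t with
  | none => exact ⟨_, h.swap hB⟩
  | some t => exact ⟨_, h.shift hB t⟩

theorem exists_pt {B : V →ₗ[F] V →ₗ[F] F} (P Q z : V) : ∃ t : Option F, B z (pt P Q t) = 0 := by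
  by_cases hQ : B z Q = 0
  · exact ⟨none, hQ⟩
  · refine ⟨some (- B z P / B z Q), ?_⟩
    simp only [pt, map_add, map_smul, smul_eq_mul]
    field_simp
    ring

/-- the double counting -/
theorem count {B : V →ₗ[F] V →ₗ[F] F} {x y P Q : V} {O : Finset V} :
    O.card + Fintype.card F * (O.filter fun z => B z P = 0 ∧ B z Q = 0).card ≤
      ∑ t : Option F, (O.filter fun z => B z (pt P Q t) = 0).card := by
  classical
  have e1 : ∑ t : Option F, (O.filter fun z => B z (pt P Q t) = 0).card =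
      ∑ z ∈ O, (Finset.univ.filter fun t : Option F => B z (pt P Q t) = 0).card := by
    simp only [Finset.card_filter]
    rw [Finset.sum_comm]
  have e2 : O.card + Fintype.card F * (O.filter fun z => B z P = 0 ∧ B z Q = 0).card =
      ∑ z ∈ O, (1 + if B z P = 0 ∧ B z Q = 0 then Fintype.card F else 0) := by
    rw [Finset.sum_add_distrib, Finset.sum_const, smul_eq_mul, mul_one, ← Finset.sum_filter,
      Finset.sum_const, smul_eq_mul, mul_comm]
  rw [e1, e2]
  refine Finset.sum_le_sum fun z _ => ?_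
  split_ifs with hz
  · have h3 : (Finset.univ.filter fun t : Option F => B z (pt P Q t) = 0) = Finset.univ := by
      rw [Finset.filter_true_of_mem]
      intro t _
      cases t with
      | none => exact hz.2
      | some t => simp [pt, hz.1, hz.2]
    rw [h3, Finset.card_univ, Fintype.card_option]
    omega
  · obtain ⟨t, ht⟩ := exists_pt (B := B) P Q z
    have h4 : t ∈ Finset.univ.filter fun t : Option F => B z (pt P Q t) = 0 := by
      rw [Finset.mem_filter]
      exact ⟨Finset.mem_univ _, ht⟩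
    have := Finset.card_pos.2 ⟨t, h4⟩
    omega

theorem sum_le {B : V →ₗ[F] V →ₗ[F] F} {x y P Q : V} (hB : Symp B) (h : Bas B x y P Q)
    {O : Finset V} (hO : PO B O) (hy : y ∈ O) :
    ∑ t : Option F, (O.filter fun z => B z (pt P Q t) = 0).card ≤
      (Fintype.card F + 1) * (Fintype.card F + 1) := by
  calc _ ≤ ∑ _t : Option F, (Fintype.card F + 1) := by
        refine Finset.sum_le_sum fun t _ => ?_
        obtain ⟨R, hR⟩ := bas_pt hB h t
        exact card_le hB hR hO hy
    _ = _ := by rw [Finset.sum_const, Finset.card_univ, Fintype.card_option, smul_eq_mul]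

/-- a partial ovoid has at most `q ^ 2 + 1` elements -/
theorem card_le_sq {B : V →ₗ[F] V →ₗ[F] F} (hB : Symp B) {O : Finset V} (hO : PO B O) :
    O.card ≤ Fintype.card F ^ 2 + 1 := by
  by_cases h1 : O.card ≤ 1
  · omega
  · rw [not_le, Finset.one_lt_card] at h1
    obtain ⟨x, hx, y, hy, hxy⟩ := h1
    obtain ⟨P, Q, h⟩ := hB.exists_bas (hO x hx y hy hxy)
    have h2 := count (B := B) (x := x) (y := y) (P := P) (Q := Q) (O := O)
    have h3 := sum_le hB h hO hy
    have h4 : 2 ≤ (O.filter fun z => B z P = 0 ∧ B z Q = 0).card := by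
      rw [← Finset.card_pair hxy]
      apply Finset.card_le_card
      intro z hz
      rw [Finset.mem_insert, Finset.mem_singleton] at hz
      rw [Finset.mem_filter]
      rcases hz with rfl | rfl
      · exact ⟨hx, h.xP, h.xQ⟩
      · exact ⟨hy, h.yP, h.yQ⟩
    nlinarith

/-- in a large partial ovoid no three elements are on a line -/
theorem no_three {B : V →ₗ[F] V →ₗ[F] F} (hB : Symp B) {O : Finset V} (hO : PO B O)
    (hc : Fintype.card F ^ 2 ≤ O.card) {x y z : V} (hx : x ∈ O) (hy : y ∈ O) (hz : z ∈ O)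
    (hxy : x ≠ y) {a b : F} (e : z = a • x + b • y) : z = x ∨ z = y := by
  by_contra hne
  push Not at hne
  obtain ⟨P, Q, h⟩ := hB.exists_bas (hO x hx y hy hxy)
  have h2 := count (B := B) (x := x) (y := y) (P := P) (Q := Q) (O := O)
  have h3 := sum_le hB h hO hy
  have h4 : 3 ≤ (O.filter fun z => B z P = 0 ∧ B z Q = 0).card := by
    have h5 : ({x, y, z} : Finset V).card = 3 := by
      rw [Finset.card_eq_three]
      exact ⟨x, y, z, hxy, hne.1.symm, hne.2.symm, rfl⟩
    rw [← h5]
    apply Finset.card_le_card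
    intro w hw
    rw [Finset.mem_insert, Finset.mem_insert, Finset.mem_singleton] at hw
    rw [Finset.mem_filter]
    rcases hw with rfl | rfl | rfl
    · exact ⟨hx, h.xP, h.xQ⟩
    · exact ⟨hy, h.yP, h.yQ⟩
    · refine ⟨hz, ?_, ?_⟩
      · rw [e]
        simp [h.xP, h.yP]
      · rw [e]
        simp [h.xQ, h.yQ]
  have hq : 2 ≤ Fintype.card F := Fintype.one_lt_card
  nlinarith

/-- some plane meets a large partial ovoid in `q + 1` points -/
theorem exists_full {B : V →ₗ[F] V →ₗ[F] F} (hB : Symp B) {O : Finset V} (hO : PO B O)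
    (hc : Fintype.card F ^ 2 ≤ O.card) : ∃ x ∈ O, ∃ y ∈ O, x ≠ y ∧ ∃ P Q, Bas B x y P Q ∧
      (O.filter fun z => B z P = 0).card = Fintype.card F + 1 := by
  have hq : 2 ≤ Fintype.card F := Fintype.one_lt_card
  have h1 : 1 < O.card := by nlinarith
  rw [Finset.one_lt_card] at h1
  obtain ⟨x, hx, y, hy, hxy⟩ := h1
  obtain ⟨P, Q, h⟩ := hB.exists_bas (hO x hx y hy hxy)
  have h2 := count (B := B) (x := x) (y := y) (P := P) (Q := Q) (O := O)
  have h4 : 2 ≤ (O.filter fun z => B z P = 0 ∧ B z Q = 0).card := by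
    rw [← Finset.card_pair hxy]
    apply Finset.card_le_card
    intro z hz
    rw [Finset.mem_insert, Finset.mem_singleton] at hz
    rw [Finset.mem_filter]
    rcases hz with rfl | rfl
    · exact ⟨hx, h.xP, h.xQ⟩
    · exact ⟨hy, h.yP, h.yQ⟩
  by_contra hcon
  push Not at hcon
  have h5 : ∑ t : Option F, (O.filter fun z => B z (pt P Q t) = 0).card ≤
      ∑ _t : Option F, Fintype.card F := by
    refine Finset.sum_le_sum fun t _ => ?_
    obtain ⟨R, hR⟩ := bas_pt hB h t
    have h6 := card_le hB hR hO hy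
    have h7 := hcon x hx y hy hxy _ _ hR
    omega
  rw [Finset.sum_const, Finset.card_univ, Fintype.card_option, smul_eq_mul] at h5
  nlinarith

/-- **Partial ovoids in odd characteristic.** -/
theorem odd_bound {B : V →ₗ[F] V →ₗ[F] F} (hB : Symp B) {O : Finset V} (hO : PO B O)
    (hodd : Odd (Fintype.card F)) : O.card < Fintype.card F ^ 2 := by
  by_contra hc
  rw [not_lt] at hc
  obtain ⟨x, hx, y, hy, hxy, P, Q, h, hcard⟩ := exists_full hB hO hc
  obtain ⟨Z, hZ⟩ : ∃ Z, Z = (O.filter fun z => B z P = 0).erase y := ⟨_, rfl⟩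
  have hyO : y ∈ O.filter fun z => B z P = 0 := by
    rw [Finset.mem_filter]
    exact ⟨hy, h.yP⟩
  have hZc : Z.card = Fintype.card F := by
    rw [hZ, Finset.card_erase_of_mem hyO, hcard]
    rfl
  have hZm : ∀ z, z ∈ Z ↔ z ≠ y ∧ z ∈ O ∧ B z P = 0 := by
    intro z
    rw [hZ, Finset.mem_erase, Finset.mem_filter]
  obtain ⟨γ, hγ⟩ : ∃ γ : V → F, γ = fun z => B z x / B z y := ⟨_, rfl⟩
  obtain ⟨f, hf⟩ : ∃ f : V → F, f = fun z => B z Q * B x y / B z y := ⟨_, rfl⟩
  have hγi : ∀ z ∈ Z, ∀ w ∈ Z, γ z = γ w → z = w := by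
    intro z hz w hw hzw
    have := inj_slope hB h hO hy
    rw [← hZ, ← hγ] at this
    exact this (Finset.mem_coe.2 hz) (Finset.mem_coe.2 hw) hzw
  have hyx : B y x = - B x y := hB.neg y x
  have hne := h.xy
  have hzy : ∀ z ∈ Z, B z y ≠ 0 := by
    intro z hz
    rw [hZm] at hz
    exact hO z hz.2.1 y hy hz.1
  have til : ∀ z ∈ Z, (B x y / B z y) • z = x - γ z • y + f z • P := by
    intro z hz
    have h1 := hzy z hz
    have e1 := h.ex z
    rw [((hZm z).1 hz).2.2, zero_smul, sub_zero] at e1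
    have e2 : B x y / B z y * (B z y / B x y) = 1 := by field_simp
    have e3 : B x y / B z y * (B z x / B y x) = - (B z x / B z y) := by
      rw [hyx]
      field_simp
    have e4 : B x y / B z y * B z Q = B z Q * B x y / B z y := by ring
    have e5 := congrArg (fun v => (B x y / B z y) • v) e1
    simp only [smul_add, smul_smul] at e5
    rw [e2, e3, e4, one_smul, neg_smul, ← sub_eq_add_neg] at e5
    rw [hγ, hf]
    exact e5
  -- three elements of `O` are not on a line
  have hf1 : ∀ z ∈ Z, ∀ w ∈ Z, z ≠ w → f w - f z ≠ 0 := by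
    intro z hz w hw hzw h0
    have hg : γ w - γ z ≠ 0 := sub_ne_zero.2 fun e => hzw (hγi w hw z hz e).symm
    have e1 := til z hz
    have e2 := til w hw
    have e3 : y = ((γ w - γ z)⁻¹ * (B x y / B z y)) • z +
        (-((γ w - γ z)⁻¹ * (B x y / B w y))) • w := by
      rw [neg_smul, mul_smul, mul_smul, e1, e2, ← smul_neg, ← smul_add, sub_eq_zero.1 h0]
      have e4 : x - γ z • y + f z • P + -(x - γ w • y + f z • P) = (γ w - γ z) • y := by
        module
      rw [e4, smul_smul, inv_mul_cancel₀ hg, one_smul]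
    rcases no_three hB hO hc ((hZm z).1 hz).2.1 ((hZm w).1 hw).2.1 hy hzw e3 with e | e
    · exact ((hZm z).1 hz).1 e.symm
    · exact ((hZm w).1 hw).1 e.symm
  have hf2 : ∀ z ∈ Z, ∀ w ∈ Z, ∀ v ∈ Z, z ≠ w → (f w - f z) * (γ v - γ z) =
      (f v - f z) * (γ w - γ z) → v = z ∨ v = w := by
    intro z hz w hw v hv hzw h0
    have hg : γ w - γ z ≠ 0 := sub_ne_zero.2 fun e => hzw (hγi w hw z hz e).symm
    obtain ⟨l, hl⟩ : ∃ l, l = (γ v - γ z) / (γ w - γ z) := ⟨_, rfl⟩
    have hl1 : γ v - γ z = l * (γ w - γ z) := by rw [hl, div_mul_cancel₀ _ hg]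
    have hl2 : f v - f z = l * (f w - f z) := by
      have : (f v - f z) * (γ w - γ z) = l * (f w - f z) * (γ w - γ z) := by
        rw [← h0, hl1]
        ring
      exact mul_right_cancel₀ hg this
    have e1 := til z hz
    have e2 := til w hw
    have e3 := til v hv
    have hv0 : B x y / B v y ≠ 0 := div_ne_zero h.xy (hzy v hv)
    have e4 : (B x y / B v y) • v = (1 - l) • ((B x y / B z y) • z) + l • ((B x y / B w y) • w) := by
      rw [e1, e2, e3]
      have e5 : γ v = γ z + l * (γ w - γ z) := by rw [← hl1]; ring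
      have e6 : f v = f z + l * (f w - f z) := by rw [← hl2]; ring
      rw [e5, e6]
      module
    have e5 : v = ((B x y / B v y)⁻¹ * ((1 - l) * (B x y / B z y))) • z +
        ((B x y / B v y)⁻¹ * (l * (B x y / B w y))) • w := by
      have e6 := congrArg (fun u => (B x y / B v y)⁻¹ • u) e4
      simp only [smul_add, smul_smul] at e6
      rw [inv_mul_cancel₀ hv0, one_smul] at e6
      exact e6
    exact no_three hB hO hc ((hZm z).1 hz).2.1 ((hZm w).1 hw).2.1 ((hZm v).1 hv).2.1 hzw e5
  have partner : ∀ z ∈ Z, ∃ w ∈ Z, z ≠ w ∧ f w - f z = γ w - γ z := by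
    intro z hz
    have hcard1 : (Finset.univ.erase (0 : F)).card ≤ (Z.erase z).card := by
      rw [Finset.card_erase_of_mem (Finset.mem_univ _), Finset.card_erase_of_mem hz, hZc,
        Finset.card_univ]
    have hsurj := Finset.surj_on_of_inj_on_of_card_le (s := Z.erase z)
      (t := Finset.univ.erase (0 : F)) (fun w _ => (f w - f z) / (γ w - γ z)) ?_ ?_ hcard1
    · obtain ⟨w, hw, e⟩ := hsurj 1 (by
        rw [Finset.mem_erase]
        exact ⟨one_ne_zero, Finset.mem_univ _⟩)
      rw [Finset.mem_erase] at hw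
      have hg : γ w - γ z ≠ 0 := sub_ne_zero.2 fun e => hw.1 (hγi w hw.2 z hz e)
      refine ⟨w, hw.2, hw.1.symm, ?_⟩
      exact ((div_eq_one_iff_eq hg).1 e.symm)
    · intro w hw
      rw [Finset.mem_erase] at hw
      have hg : γ w - γ z ≠ 0 := sub_ne_zero.2 fun e => hw.1 (hγi w hw.2 z hz e)
      rw [Finset.mem_erase]
      exact ⟨div_ne_zero (hf1 z hz w hw.2 hw.1.symm) hg, Finset.mem_univ _⟩
    · intro w v hw hv e
      rw [Finset.mem_erase] at hw hv
      have hg : γ w - γ z ≠ 0 := sub_ne_zero.2 fun e => hw.1 (hγi w hw.2 z hz e)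
      have hg' : γ v - γ z ≠ 0 := sub_ne_zero.2 fun e => hv.1 (hγi v hv.2 z hz e)
      rw [div_eq_div_iff hg hg'] at e
      rcases hf2 z hz w hw.2 v hv.2 hw.1.symm e with e | e
      · exact absurd e hv.1
      · exact e.symm
  have heven : Even Z.card := by
    rw [Finset.card_eq_sum_card_image (fun z => f z - γ z) Z]
    apply Finset.even_sum
    intro c hcm
    rw [Finset.mem_image] at hcm
    obtain ⟨z, hz, hzc⟩ := hcm
    obtain ⟨w, hw, hzw, e⟩ := partner z hz
    have hwc : f w - γ w = c := by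
      rw [← hzc]
      linear_combination e
    have : (Z.filter fun a => f a - γ a = c) = {z, w} := by
      ext v
      rw [Finset.mem_filter, Finset.mem_insert, Finset.mem_singleton]
      constructor
      · rintro ⟨hv, hvc⟩
        apply hf2 z hz w hw v hv hzw
        rw [e]
        have : f v - f z = γ v - γ z := by linear_combination hvc - hzc
        rw [this]
        ring
      · rintro (rfl | rfl)
        · exact ⟨hz, hzc⟩
        · exact ⟨hw, hwc⟩
    rw [this, Finset.card_pair hzw]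
    exact even_two
  rw [hZc] at heven
  exact (Nat.not_even_iff_odd.2 hodd) heven

end fin

end Pool.Agent.R672.UU
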